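import Mathlib
import Pool.Agent.N675.FC.Top

/-!
Values of the Liouville function at affine functions of long variables `n`, short variables `y` and
with FIXED constants, for almost all `y`, at all but few scales. For example
`∑_{d ≤ D} |∑_{n ≤ x} λ(n + 1) λ(n) λ(n + d) ⋯ λ(n + (k - 1) d)| = o(x D)` for every `k`, `D` growing as
slowly as one likes, and all `16` patterns of `λ(n), λ(n + 1), λ(n + d), λ(n + 2 d)` are
equidistributed for almost all `d ≤ D`.
-/

namespace Pool.Agent.Results.MP_a14ce1_nt.FixedAndShortDistances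

open Finset

/-- The Liouville function of `|m|`, with value `1` at `m = 0`. -/
noncomputable def lam (m : ℤ) : ℝ := (-1) ^ ArithmeticFunction.cardFactors m.natAbs

/-- The value `φ · n + L · y + b` of the affine function. -/
def val {p q : ℕ} (φ : Fin p → ℤ) (L : Fin q → ℤ) (b : ℤ) (n : Fin p → ℤ) (y : Fin q → ℤ) : ℤ :=
  ∑ s, φ s * n s + ∑ s, L s * y s + b

/-- The cluster of the form `i₀` in the set `E`: the forms of `E` whose long part `φ i` is parallel
(proportional) to `φ i₀`. -/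
def cluster {k p : ℕ} (φ : Fin k → Fin p → ℤ) (E : Finset (Fin k)) (i₀ : Fin k) :
    Finset (Fin k) :=
  E.filter fun i => ∀ s s', φ i s * φ i₀ s' = φ i s' * φ i₀ s

/-- Good sets of forms: one of the clusters of `E` has an odd number of forms, or it contains a form
`φ n + L y + c b` which varies in a direction `(v, w, c)` in which the other forms of the cluster do
not vary. -/
def Good {k p q : ℕ} (φ : Fin k → Fin p → ℤ) (L : Fin k → Fin q → ℤ) (b : Fin k → ℤ)
    (E : Finset (Fin k)) : Prop :=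
  ∃ i₀ ∈ E, Odd (cluster φ E i₀).card ∨
    ∃ i₁ ∈ cluster φ E i₀, ∃ (v : Fin p → ℤ) (w : Fin q → ℤ) (c : ℤ),
      ∑ s, φ i₁ s * v s + ∑ s, L i₁ s * w s + c * b i₁ ≠ 0 ∧
      ∀ i ∈ cluster φ E i₀, i ≠ i₁ → ∑ s, φ i s * v s + ∑ s, L i s * w s + c * b i = 0

/-- The box `∏ [1, B s]` of integer vectors. -/
noncomputable def box {n : ℕ} (B : Fin n → ℕ) : Finset (Fin n → ℤ) :=
  Fintype.piFinset fun s => Icc (1 : ℤ) (B s)

/-- The sizes of the scale `2^(-i)`: `X' s` lies between `x / (R 2^i)` and `R x / 2^i`, and `Y' s`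
between `Y s / (R 2^i)` and `R Y s / 2^i`. -/
def OfScale {p q : ℕ} (R i x : ℕ) (Y : Fin q → ℕ) (X' : Fin p → ℕ) (Y' : Fin q → ℕ) : Prop :=
  (∀ s, x ≤ R * 2 ^ i * X' s ∧ 2 ^ i * X' s ≤ R * x) ∧
    ∀ s, Y s ≤ R * 2 ^ i * Y' s ∧ 2 ^ i * Y' s ≤ R * Y s

open Classical in
/-- The exceptional scales `1 ≤ i ≤ J` for the correlations: for some sizes of the scale `2^(-i)` the
sum over `y` of the ABSOLUTE VALUES of the sums over `n` of the products of the `k` values is larger
than `ε` times the size of the box. -/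
noncomputable def excCorr {k p q : ℕ} (φ : Fin k → Fin p → ℤ) (L : Fin k → Fin q → ℤ)
    (b : Fin k → ℤ) (R : ℕ) (ε : ℝ) (J x : ℕ) (Y : Fin q → ℕ) : Finset ℕ :=
  (Icc 1 J).filter fun i => ∃ (X' : Fin p → ℕ) (Y' : Fin q → ℕ), OfScale R i x Y X' Y' ∧
    ε * ((∏ s, (X' s : ℝ)) * ∏ s, (Y' s : ℝ))
      < ∑ y ∈ box Y', |∑ n ∈ box X', ∏ i, lam (val (φ i) (L i) (b i) n y)|

open Classical in
/-- The exceptional scales `1 ≤ i ≤ J` for the sign patterns: for some sizes of the scale `2^(-i)` and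
some signs `σ` the sum over `y` of the absolute value of the difference between the number of the `n`
with the signs `σ` and the expected number is larger than `ε` times the size of the box. -/
noncomputable def excPat {k p q : ℕ} (φ : Fin k → Fin p → ℤ) (L : Fin k → Fin q → ℤ)
    (b : Fin k → ℤ) (R : ℕ) (ε : ℝ) (J x : ℕ) (Y : Fin q → ℕ) : Finset ℕ :=
  (Icc 1 J).filter fun i => ∃ (X' : Fin p → ℕ) (Y' : Fin q → ℕ) (σ : Fin k → ℝ),
    OfScale R i x Y X' Y' ∧ (∀ i, σ i = 1 ∨ σ i = -1) ∧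
    ε * ((∏ s, (X' s : ℝ)) * ∏ s, (Y' s : ℝ))
      < ∑ y ∈ box Y',
        |(((box X').filter fun n => ∀ i, lam (val (φ i) (L i) (b i) n y) = σ i).card : ℝ)
          - (∏ s, (X' s : ℝ)) / 2 ^ k|

/-- Let `φ i · n + L i · y + b i`, `i < k`, be integral affine functions of long variables `n` and
short variables `y`, with `φ i ≠ 0`. (1) If the set of all forms is good, the correlations are small
for almost all `y` at all but few scales. (2) If all nonempty sets of the forms are good, the sign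
patterns are equidistributed for almost all `y` at all but few scales. Few: given `R` and `ε`, the
sum of `1 / i` over the exceptional `i` is at most a constant `C`, for every `J`, all `x ≥ K` and all
sizes `K ≤ Y s ≤ R x` of the short variables, where only `K` depends on `J`. -/
theorem result (k p q : ℕ) (φ : Fin k → Fin p → ℤ) (L : Fin k → Fin q → ℤ) (b : Fin k → ℤ)
    (hφ : ∀ i, φ i ≠ 0) :
    (Good φ L b univ → ∀ (R : ℕ) (ε : ℝ), 0 < ε → ∃ C : ℝ, ∀ J : ℕ, ∃ K : ℕ,
      ∀ (x : ℕ) (Y : Fin q → ℕ), K ≤ x → (∀ s, K ≤ Y s ∧ Y s ≤ R * x) →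
      ∑ i ∈ excCorr φ L b R ε J x Y, 1 / (i : ℝ) ≤ C) ∧
    ((∀ E : Finset (Fin k), E.Nonempty → Good φ L b E) →
      ∀ (R : ℕ) (ε : ℝ), 0 < ε → ∃ C : ℝ, ∀ J : ℕ, ∃ K : ℕ,
      ∀ (x : ℕ) (Y : Fin q → ℕ), K ≤ x → (∀ s, K ≤ Y s ∧ Y s ≤ R * x) →
      ∑ i ∈ excPat φ L b R ε J x Y, 1 / (i : ℝ) ≤ C) := by
  classical
  constructor
  · intro hE R ε hε
    obtain ⟨C, hC⟩ := Pool.Agent.N675.FC.lam_fc φ L b hφ univ hE R ε hε
    refine ⟨C, fun J => ?_⟩
    obtain ⟨K, hK⟩ := hC J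
    refine ⟨K, fun x Y hx hY => le_trans (Finset.sum_le_sum_of_subset_of_nonneg ?_
      fun _ _ _ => by positivity) (hK x Y hx hY)⟩
    intro i hi
    unfold excCorr at hi
    unfold Pool.Agent.N675.FC.excE
    rw [Finset.mem_filter] at hi ⊢
    obtain ⟨hiJ, X', Y', ⟨hX', hY'⟩, hlt⟩ := hi
    exact ⟨hiJ, X', Y', hX', hY', hlt⟩
  · intro hE R ε hε
    obtain ⟨C, hC⟩ := Pool.Agent.N675.FC.lam_fcp φ L b hφ hE R ε hε
    refine ⟨C, fun J => ?_⟩
    obtain ⟨K, hK⟩ := hC J
    refine ⟨K, fun x Y hx hY => le_trans (Finset.sum_le_sum_of_subset_of_nonneg ?_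
      fun _ _ _ => by positivity) (hK x Y hx hY)⟩
    intro i hi
    unfold excPat at hi
    unfold Pool.Agent.N675.FC.excF
    rw [Finset.mem_filter] at hi ⊢
    obtain ⟨hiJ, X', Y', σ, ⟨hX', hY'⟩, hσ, hlt⟩ := hi
    exact ⟨hiJ, X', Y', σ, hX', hY', hσ, hlt⟩

end Pool.Agent.Results.MP_a14ce1_nt.FixedAndShortDistances
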