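import Mathlib
import Pool.Agent.N675.FS.Top

/-!
Values of the Liouville function at affine functions `φ_i(y) + b_i` of several variables with FIXED
constants `b_i`, at all but few scales: correlations, sign patterns. For example the products
`λ(n) λ(n + 1)` and `λ(n) λ(n + 1) λ(n + 2)` are Gowers uniform of all orders, and the sign patterns
of `λ(n + i m + j)`, `i < k`, `j < 3`, are equidistributed (`n, m` in boxes).
-/

namespace Pool.Agent.Results.MP_a14ce1_nt.FixedShiftPatterns

open Finset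

/-- The Liouville function of `|m|`, with value `1` at `m = 0`. -/
noncomputable def lam (m : ℤ) : ℝ := (-1) ^ ArithmeticFunction.cardFactors m.natAbs

/-- The affine function `φ(y) + b`. -/
def aff {n : ℕ} (φ : Fin n → ℤ) (b : ℤ) (y : Fin n → ℤ) : ℤ := ∑ s, φ s * y s + b

/-- The class of the form `φ i₀`: the `i` such that `φ i` is parallel (proportional) to `φ i₀`. -/
def cls {k n : ℕ} (φ : Fin k → Fin n → ℤ) (i₀ : Fin k) : Finset (Fin k) :=
  univ.filter fun i => ∀ s s', φ i s * φ i₀ s' = φ i s' * φ i₀ s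

/-- `φ_i + b_i` and `φ_j + b_j` are not proportional as affine functions. -/
def NotProp {k n : ℕ} (φ : Fin k → Fin n → ℤ) (b : Fin k → ℤ) (i j : Fin k) : Prop :=
  (∃ s s', φ i s * φ j s' ≠ φ i s' * φ j s) ∨ ∃ s, φ i s * b j ≠ φ j s * b i

/-- Some class has an odd number of elements, or it has exactly two elements and the two affine
functions are not proportional. -/
def Good {k n : ℕ} (φ : Fin k → Fin n → ℤ) (b : Fin k → ℤ) : Prop :=
  ∃ i₀, Odd (cls φ i₀).card ∨ ((cls φ i₀).card = 2 ∧ ∃ i ∈ cls φ i₀, NotProp φ b i i₀)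

/-- The box `∏ (u s, u s + B s]` of integer vectors. -/
noncomputable def box {n : ℕ} (u : Fin n → ℤ) (B : Fin n → ℕ) : Finset (Fin n → ℤ) :=
  Fintype.piFinset fun s => Ioc (u s) (u s + B s)

/-- The boxes of the scale `N / 2^i`: all sides lie between `N / (R 2^i)` and `R N / 2^i`, and
`|u s| ≤ R N / 2^i`. -/
def OfScale {n : ℕ} (R N i : ℕ) (u : Fin n → ℤ) (B : Fin n → ℕ) : Prop :=
  ∀ s, 2 ^ i * |u s| ≤ (R : ℤ) * N ∧ N ≤ R * 2 ^ i * B s ∧ 2 ^ i * B s ≤ R * N

open Classical in
/-- The exceptional scales `1 ≤ i ≤ J` for the correlations: the sum of the products of the `k`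
values over some box of the scale `N / 2^i` is larger than `ε` times the size of the box. -/
noncomputable def excCorr {k n : ℕ} (φ : Fin k → Fin n → ℤ) (b : Fin k → ℤ) (R : ℕ) (ε : ℝ)
    (J N : ℕ) : Finset ℕ :=
  (Icc 1 J).filter fun i => ∃ (u : Fin n → ℤ) (B : Fin n → ℕ), OfScale R N i u B ∧
    ε * ∏ s, (B s : ℝ) < |∑ y ∈ box u B, ∏ j, lam (aff (φ j) (b j) y)|

open Classical in
/-- The exceptional scales `1 ≤ i ≤ J` for the sign patterns: in some box of the scale `N / 2^i` the
number of the `y` with some sign pattern `σ` is not within `ε` times the size of the box of the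
expected number. -/
noncomputable def excPat {k n : ℕ} (φ : Fin k → Fin n → ℤ) (b : Fin k → ℤ) (R : ℕ) (ε : ℝ)
    (J N : ℕ) : Finset ℕ :=
  (Icc 1 J).filter fun i => ∃ (u : Fin n → ℤ) (B : Fin n → ℕ) (σ : Fin k → ℝ),
    OfScale R N i u B ∧ (∀ j, σ j = 1 ∨ σ j = -1) ∧
    ε * ∏ s, (B s : ℝ) < |(((box u B).filter fun y => ∀ j, lam (aff (φ j) (b j) y) = σ j).card : ℝ)
      - (∏ s, (B s : ℝ)) / 2 ^ k|

/-- Let `φ_j + b_j`, `j < k`, be integral affine functions in `n` variables, `φ_j ≠ 0`. (1) If some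
class of parallel `φ_j` is odd, or has two elements which are not proportional as affine functions,
the correlations are small at all but few scales. (2) If no two of the `k` affine functions are
proportional and all classes have at most three elements, all `2^k` sign patterns are
equidistributed at all but few scales. Few: the sum of `1 / i` over the exceptional scales is at
most `C`, where `C` does not depend on `J` and `N`. -/
theorem result (k n : ℕ) (φ : Fin k → Fin n → ℤ) (b : Fin k → ℤ) (hφ : ∀ j, φ j ≠ 0) :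
    (Good φ b → ∀ (R : ℕ) (ε : ℝ), 0 < ε → ∃ C : ℝ, ∀ J : ℕ, ∃ N₀ : ℕ, ∀ N : ℕ, N₀ ≤ N →
      ∑ i ∈ excCorr φ b R ε J N, 1 / (i : ℝ) ≤ C) ∧
    ((∀ i j, i ≠ j → NotProp φ b i j) → (∀ i₀, (cls φ i₀).card ≤ 3) →
      ∀ (R : ℕ) (ε : ℝ), 0 < ε → ∃ C : ℝ, ∀ J : ℕ, ∃ N₀ : ℕ, ∀ N : ℕ, N₀ ≤ N →
      ∑ i ∈ excPat φ b R ε J N, 1 / (i : ℝ) ≤ C) := by
  constructor
  · rintro ⟨i₀, hg⟩ R ε hε
    obtain ⟨C, hC⟩ := Pool.Agent.N675.FS.lam_cor φ b hφ Finset.univ ⟨i₀, Finset.mem_univ _, by
      rcases hg with h1 | ⟨h1, i, hi, h2⟩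
      · exact Or.inl h1
      · refine Or.inr ⟨h1, i, hi, ?_⟩
        rcases h2 with ⟨s, s', h3⟩ | h3
        · exact absurd ((Finset.mem_filter.1 hi).2 s s') h3
        · exact h3⟩ R ε hε
    exact ⟨C, hC⟩
  · intro hNP h3 R ε hε
    exact Pool.Agent.N675.FS.lam_pat φ b hφ
      (fun E hE => Pool.Agent.N675.FS.good_of_three φ b hNP h3 E hE) R ε hε

end Pool.Agent.Results.MP_a14ce1_nt.FixedShiftPatterns
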