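import Mathlib
import Pool.Agent.N781.S.IsoAll

/-!
# The structure of the correlations of the Liouville function, and of all bounded multiplicative
functions, along almost all dilates: every order, every scale

For the Liouville function `f 1 = ⋯ = f k = λ`, `a i = 1`, `b i = i - 1` the sum `corr a b f x d` is
the dilated sum `∑_{n ≤ x} λ(n) λ(n + d) ⋯ λ(n + (k - 1) d)`, with `d = 1` in Chowla's conjecture. For
every order `k`, even orders included, and for every `x` it is, for almost all `d ≤ D`, determined by
the residue class of `d` modulo `Q` and by which of `Q` intervals of length `D / Q` contains `d`, where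
`Q` depends only on the forms and on the precision; and the dependence on the residue class is through
a character modulo `Q`. For `λ` and even `k` this character is principal: the correlation depends only
on the greatest common divisor of `d` and `Q` and on the interval.
-/

open Finset

namespace Pool.Agent.Results.MP_a14ce1_nt.IsotypicStructure

/-- Multiplicative functions with values in the closed unit disc. -/
def IsMult (f : ℕ → ℂ) : Prop :=
  (∀ n, ‖f n‖ ≤ 1) ∧ ∀ m n : ℕ, m.Coprime n → f (m * n) = f m * f n

/-- The correlation sum `∑_{n ≤ x} ∏ i, f i |a i n + b i d|`. -/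
noncomputable def corr {k : ℕ} (a b : Fin k → ℤ) (f : Fin k → ℕ → ℂ) (x : ℕ) (d : ℤ) : ℂ :=
  ∑ n ∈ Icc (1 : ℤ) x, ∏ i, f i (a i * n + b i * d).natAbs

/-- **Isotypic structure theorem.** For all integers `a i ≠ 0`, `b i`, all `R` and all `ε > 0` there
are `Q` and `K` such that for all multiplicative functions `f i` with values in the unit disc, all `x`
and all `K ≤ D ≤ R x`, the correlation at `d` is within `ε D x`, in the sum over `d ≤ D`, of
`x * s u d`, where `u` is the number of the interval of length `D / Q` containing `d`, each `s u` is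
`Q`-periodic, and `s u (n r) = χ n * s u r` for the `n` coprime to `Q`, with a character `χ` modulo `Q`
which is principal if the product of the values of the `f i` at every prime is `1`. -/
theorem result : ∀ (k R : ℕ) (a b : Fin k → ℤ), 0 < k → (∀ i, a i ≠ 0) → ∀ ε : ℝ, 0 < ε →
    ∃ Q K : ℕ, 0 < Q ∧ ∀ D x : ℕ, K ≤ D → D ≤ R * x →
      ∀ f : Fin k → ℕ → ℂ, (∀ i, IsMult (f i)) →
      ∃ (χ : DirichletCharacter ℂ Q) (s : ℤ → ℤ → ℂ),
        (∀ u r n : ℤ, IsCoprime n (Q : ℤ) → s u (n * r) = χ (n : ZMod Q) * s u r) ∧
        (∀ u r : ℤ, s u (r + Q) = s u r) ∧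
        ∑ d ∈ Icc (1 : ℤ) D, ‖corr a b f x d - x * s ((d - 1) * Q / D) d‖ ≤ ε * (D * x) ∧
        ((∀ p : ℕ, p.Prime → ∏ i, f i p = 1) → χ = 1) := by
  intro k R a b hk ha ε hε
  exact Pool.Agent.N781.S.isotypic_structure R k a b hk ha ε hε

end Pool.Agent.Results.MP_a14ce1_nt.IsotypicStructure
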