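import Mathlib
import Pool.Agent.N675.M.CluL

/-!
Products of values of the Liouville function at linear forms in `n`, in long parameters and in
parameters which grow arbitrarily slowly: clusters of forms, sign patterns, Gowers uniformity of the
products of `k` values.
-/

namespace Pool.Agent.Results.MP_a14ce1_nt.ProportionalClusters

open Pool.Agent.N675 Pool.Agent.N675.M Pool.Agent.N781.A

/-- The Liouville function of `|m|`, with value `1` at `m = 0`. -/
noncomputable def lam (m : ℤ) : ℝ := (-1) ^ ArithmeticFunction.cardFactors m.natAbs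

/-- The cluster of the form `i₀` in the set `E` of forms `a i n + ∑ t, L i t d t`: the forms of `E`
whose vector of coefficients at `n` and at the long parameters `d t`, `t ∈ lg`, is proportional to
the one of the form `i₀`. -/
def cluster {k r : ℕ} (a : Fin k → ℤ) (L : Fin k → Fin r → ℤ) (lg : Finset (Fin r))
    (E : Finset (Fin k)) (i₀ : Fin k) : Finset (Fin k) :=
  E.filter fun i => ∀ t ∈ lg, a i * L i₀ t = a i₀ * L i t

/-- One of the clusters of `E` has an odd number of forms, or it contains a form which is not a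
combination of the other ones: there is a direction `(w, v)` in which it varies and the other ones
do not. -/
def Good {k r : ℕ} (a : Fin k → ℤ) (L : Fin k → Fin r → ℤ) (lg : Finset (Fin r))
    (E : Finset (Fin k)) : Prop :=
  ∃ i₀ ∈ E, Odd (cluster a L lg E i₀).card ∨
    ∃ i₁ ∈ cluster a L lg E i₀, ∃ (w : ℤ) (v : Fin r → ℤ),
      a i₁ * w + ∑ t, L i₁ t * v t ≠ 0 ∧
      ∀ i ∈ cluster a L lg E i₀, i ≠ i₁ → a i * w + ∑ t, L i t * v t = 0

/-- long parameters as a boolean function -/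
def lgb {r : ℕ} (lg : Finset (Fin r)) (t : Fin r) : Bool := decide (t ∈ lg)

lemma cls_sub {k r : ℕ} (a : Fin k → ℤ) (L : Fin k → Fin r → ℤ) (lg : Finset (Fin r))
    (E : Finset (Fin k)) (i₀ : E) :
    (cls (fun i : E => a i) (fun i : E => L i) (lgb lg) i₀).map (Function.Embedding.subtype _)
      = cluster a L lg E i₀ := by
  ext i
  rw [Finset.mem_map]
  unfold cluster
  rw [Finset.mem_filter]
  constructor
  · rintro ⟨j, hj, rfl⟩
    rw [mem_cls] at hj
    exact ⟨j.2, fun t ht => hj t (by simpa [lgb] using ht)⟩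
  · rintro ⟨h1, h2⟩
    refine ⟨⟨i, h1⟩, ?_, rfl⟩
    rw [mem_cls]
    exact fun t ht => h2 t (by simpa [lgb] using ht)

lemma cls_univ {k r : ℕ} (a : Fin k → ℤ) (L : Fin k → Fin r → ℤ) (lg : Finset (Fin r))
    (i₀ : Fin k) : cls a L (lgb lg) i₀ = cluster a L lg Finset.univ i₀ := by
  ext i
  rw [mem_cls]
  unfold cluster
  rw [Finset.mem_filter]
  simp [lgb]

lemma goodS_sub {k r : ℕ} (a : Fin k → ℤ) (L : Fin k → Fin r → ℤ) (lg : Finset (Fin r))
    (E : Finset (Fin k)) (h : Good a L lg E) :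
    GoodS (fun i : E => a i) (fun i : E => L i) (lgb lg) := by
  obtain ⟨i₀, hi₀, hodd | ⟨i₁, hi₁, w, v, hV1, hV0⟩⟩ := h
  · refine ⟨⟨i₀, hi₀⟩, Or.inl ?_⟩
    have h1 := cls_sub a L lg E ⟨i₀, hi₀⟩
    rw [← Finset.card_map (Function.Embedding.subtype _), h1]
    exact hodd
  · have h1 := cls_sub a L lg E ⟨i₀, hi₀⟩
    simp only at h1
    rw [← h1, Finset.mem_map] at hi₁
    obtain ⟨j₁, hj₁, rfl⟩ := hi₁
    refine ⟨⟨i₀, hi₀⟩, Or.inr ⟨j₁, hj₁, w, v, hV1, fun j hj hne => ?_⟩⟩
    refine hV0 j ?_ ?_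
    · rw [← h1]
      exact Finset.mem_map_of_mem _ hj
    · exact fun h2 => hne (Subtype.ext h2)

lemma goodS_univ {k r : ℕ} (a : Fin k → ℤ) (L : Fin k → Fin r → ℤ) (lg : Finset (Fin r))
    (h : Good a L lg Finset.univ) : GoodS a L (lgb lg) := by
  obtain ⟨i₀, -, hodd | ⟨i₁, hi₁, w, v, hV1, hV0⟩⟩ := h
  · exact ⟨i₀, Or.inl (by rw [cls_univ]; exact hodd)⟩
  · refine ⟨i₀, Or.inr ⟨i₁, by rw [cls_univ]; exact hi₁, w, v, hV1, fun i hi hne => ?_⟩⟩
    exact hV0 i (by rw [← cls_univ]; exact hi) hne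

/-- Let `a i n + L i (d)`, `i < k`, be integer linear forms in `n` and `r` parameters `d`, with
`a i ≠ 0`, and let `lg` be a set of parameters, called long. For all `R` and `ε > 0` there is `K`
such that for all `x ≥ K` and all `D j` with `K ≤ D j ≤ R x`, and `x ≤ R (D j)` if `j` is long:
(1) if the set of all forms is good, the sum over the box `1 ≤ d j ≤ D j` of the ABSOLUTE VALUES of
the sums over `1 ≤ n ≤ x` of the products of the values of the Liouville function at the forms is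
at most `ε x ∏ D j`;
(2) if every nonempty set of the forms is good, then every one of the `2 ^ k` sign patterns occurs
for `x / 2 ^ k` of the `n ≤ x`, up to an error at most `ε x ∏ D j` in total over the box;
(3) if there are no long parameters and the set of all forms is good, then the averages of the
products `X_d(n)` of the values of the Liouville function at the forms over `s`-dimensional cubes
cancel for every `s`. -/
theorem result :
    (∀ (r k : ℕ) (a : Fin k → ℤ) (L : Fin k → Fin r → ℤ) (lg : Finset (Fin r)), (∀ i, a i ≠ 0) →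
      Good a L lg Finset.univ → ∀ (R : ℕ) (ε : ℝ), 0 < ε → ∃ K : ℕ, ∀ (D : Fin r → ℕ) (x : ℕ),
        K ≤ x → (∀ j, K ≤ D j) → (∀ j, D j ≤ R * x) → (∀ j ∈ lg, x ≤ R * D j) →
        ∑ d ∈ Fintype.piFinset (fun j => Finset.Icc (1 : ℤ) (D j)),
          |∑ n ∈ Finset.Icc (1 : ℤ) x, ∏ i, lam (a i * n + ∑ j, L i j * d j)|
            ≤ ε * (x * ∏ j, (D j : ℝ))) ∧
    (∀ (r k : ℕ) (a : Fin k → ℤ) (L : Fin k → Fin r → ℤ) (lg : Finset (Fin r)), (∀ i, a i ≠ 0) →
      (∀ E : Finset (Fin k), E.Nonempty → Good a L lg E) → ∀ (R : ℕ) (ε : ℝ), 0 < ε →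
      ∃ K : ℕ, ∀ (D : Fin r → ℕ) (x : ℕ),
        K ≤ x → (∀ j, K ≤ D j) → (∀ j, D j ≤ R * x) → (∀ j ∈ lg, x ≤ R * D j) →
        ∀ s : Fin k → ℝ, (∀ i, s i = 1 ∨ s i = -1) →
        ∑ d ∈ Fintype.piFinset (fun j => Finset.Icc (1 : ℤ) (D j)),
          |({n ∈ Finset.Icc (1 : ℤ) x | ∀ i, lam (a i * n + ∑ j, L i j * d j) = s i}.card : ℝ)
            - x / 2 ^ k| ≤ ε * (x * ∏ j, (D j : ℝ))) ∧
    (∀ (r k : ℕ) (a : Fin k → ℤ) (L : Fin k → Fin r → ℤ), (∀ i, a i ≠ 0) →
      Good a L ∅ Finset.univ → ∀ (s R : ℕ) (ε : ℝ), 0 < ε → ∃ K : ℕ, ∀ (D : Fin r → ℕ) (x : ℕ),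
        K ≤ x → (∀ j, K ≤ D j) → (∀ j, D j ≤ R * x) →
        ∑ d ∈ Fintype.piFinset (fun j => Finset.Icc (1 : ℤ) (D j)),
          ∑ h ∈ Fintype.piFinset (fun _ : Fin s => Finset.Icc (1 : ℤ) x),
            |∑ n ∈ Finset.Icc (1 : ℤ) x, ∏ ω : Finset (Fin s),
              ∏ i, lam (a i * (n + ∑ j ∈ ω, h j) + ∑ j, L i j * d j)|
            ≤ ε * (x ^ (s + 1) * ∏ j, (D j : ℝ))) := by
  refine ⟨?_, ?_, ?_⟩
  · intro r k a L lg ha hg R ε hε
    obtain ⟨K, hK⟩ := clu_sum a L (lgb lg) ha (goodS_univ a L lg hg) R ε hε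
    exact ⟨K, fun D x hx hD hDx hlg => hK D x hD hx hDx fun j hj => hlg j (by simpa [lgb] using hj)⟩
  · intro r k a L lg ha hg R ε hε
    obtain ⟨K, hK⟩ := clu_pat a L (lgb lg) ha (fun E hE => goodS_sub a L lg E (hg E hE)) R ε hε
    refine ⟨K, fun D x hx hD hDx hlg s hs => ?_⟩
    have h := hK D x hD hx hDx (fun j hj => hlg j (by simpa [lgb] using hj)) s hs
    rw [Fintype.card_fin] at h
    refine le_trans (le_of_eq (Finset.sum_congr rfl fun d _ => ?_)) h
    congr 3
    refine congrArg Finset.card ?_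
    ext n
    simp only [Finset.mem_filter]
    exact Iff.rfl
  · intro r k a L ha hg s R ε hε
    have h0 : GoodS a L fun _ => false := by
      have h1 := goodS_univ a L ∅ hg
      have h2 : (lgb ∅ : Fin r → Bool) = fun _ => false := by
        funext t
        simp [lgb]
      rwa [h2] at h1
    obtain ⟨K, hK⟩ := clu_cube a L ha h0 (Fin s) R ε hε
    refine ⟨K, fun D x hx hD hDx => ?_⟩
    have h := hK D x hD hx hDx
    rw [Fintype.card_fin] at h
    exact h

end Pool.Agent.Results.MP_a14ce1_nt.ProportionalClusters
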